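import Pool.Agent.W510.CG.Stm

/-!
Project CG (helper510): the groups `K n` increase (S_STEP).
-/

set_option autoImplicit false

namespace Pool.Agent.W721.CGStep

open Pool.Agent.W510.CG

/-- chains -/
def C (n : ℕ) : ℕ → Pt L0 → Pt L0 → Pt L0 → Pt L0 → Prop
  | 0, a, c, b, d => D (Gam n : Set L0) a b c d
  | j + 1, a, c, b, d => ∃ x, D (Gam n : Set L0) a b c x ∧ C n j a c x d

lemma C_inv {n : ℕ} {g : Equiv.Perm (Pt L0)} (hg : g ∈ K n) (j : ℕ) : ∀ a c b d : Pt L0,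
    C n j (g a) (g c) (g b) (g d) ↔ C n j a c b d := by
  have hg' := mem_Aut.1 hg
  induction j with
  | zero => intro a c b d; exact hg' a b c d
  | succ j ih =>
    intro a c b d
    show (∃ x, D (Gam n : Set L0) (g a) (g b) (g c) x ∧ C n j (g a) (g c) x (g d)) ↔
      ∃ x, D (Gam n : Set L0) a b c x ∧ C n j a c x d
    constructor
    · rintro ⟨x, h1, h2⟩
      refine ⟨g⁻¹ x, ?_, ?_⟩
      · rw [← hg']; simpa using h1
      · rw [← ih]; simpa using h2
    · rintro ⟨x, h1, h2⟩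
      exact ⟨g x, (hg' _ _ _ _).2 h1, (ih _ _ _ _).2 h2⟩

lemma Y_add (a b c d x : Pt L0) : Y a b c x + Y a x c d = Y a b c d := by
  unfold Y
  rw [w_comm c x]
  abel

lemma Y_self (a b c : Pt L0) : Y a b c b = 0 := by
  unfold Y
  rw [w_comm c b]
  abel

lemma exists_pt (h1 : S_ARI) (h2 : S_STD3) (n : ℕ) {a b c : Pt L0} (hab : a ≠ b) (hac : a ≠ c)
    (hbc : b ≠ c) : ∃ x : Pt L0, a ≠ x ∧ b ≠ x ∧ c ≠ x ∧ Y a b c x = e n := by
  obtain ⟨g, hg, ga, gb, gc⟩ := h2 L0 a b c hab hac hbc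
  obtain ⟨he, -⟩ := h1 n
  have hgx : g (g⁻¹ (δ (e n))) = δ (e n) := by simp
  have h3 : a ≠ g⁻¹ (δ (e n)) := by
    intro h
    have h4 := congrArg g h
    rw [hgx, ga] at h4
    unfold o δ at h4
    rw [Option.some_inj] at h4
    have := congrArg (fun f : L0 →₀ ℤ => f (e n)) h4
    simp at this
  have h4 : b ≠ g⁻¹ (δ (e n)) := by
    intro h
    have h4 := congrArg g h
    rw [hgx, gb] at h4
    unfold δ at h4
    rw [Option.some_inj] at h4
    have := congrArg (fun f : L0 →₀ ℤ => f (e n)) h4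
    simp only [Finsupp.single_eq_same] at this
    rw [Finsupp.single_eq_of_ne he.ne'] at this
    norm_num at this
  have h5 : c ≠ g⁻¹ (δ (e n)) := by
    intro h
    have h4 := congrArg g h
    rw [hgx, gc] at h4
    unfold δ at h4
    simp at h4
  refine ⟨g⁻¹ (δ (e n)), h3, h4, h5, ?_⟩
  have h6 := mem_Iso.1 hg a b c (g⁻¹ (δ (e n))) ⟨hab, hac, h3, hbc, h4, h5⟩
  rw [← h6, hgx, ga, gb, gc]
  unfold Y o δ
  rw [w_some, w_some, w_none_left, w_none_right, zero_sub, zero_sub, v_neg, v_neg,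
    v_single _ _ one_ne_zero, v_single _ _ one_ne_zero]
  simp

lemma Gam_le (n : ℕ) {x : L0} (h : x ∈ Gam n) : x ∈ Gam (n + 1) := by
  rw [mem_Gam] at h ⊢
  intro i hi
  exact h i (by omega)

lemma forward (h1 : S_ARI) (h2 : S_STD3) (n : ℕ) (a c d : Pt L0) : ∀ (j : ℕ) (b : Pt L0),
    D (Gam (n + 1) : Set L0) a b c d → C n j a c b d := by
  intro j
  induction j with
  | zero =>
    rintro b ⟨h3, h4, h5⟩
    exact ⟨h3, h4, fun h => h5 (Gam_le n h)⟩
  | succ j ih =>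
    rintro b ⟨h3, h4, h5⟩
    obtain ⟨a1, a2, a3, a4, a5, a6⟩ := h1 n
    obtain ⟨x, x1, x2, x3, x4⟩ := exists_pt h1 h2 n h3.1 h3.2.1 h3.2.2.2.1
    have hxd : x ≠ d := by
      intro h
      rw [h] at x4
      rw [x4] at h5
      exact h5 a3
    have hY : Y a x c d = Y a b c d - e n := by
      rw [← Y_add a b c d x, x4]
      abel
    obtain ⟨k1, k2⟩ := a6 (Y a b c d) h4 h5
    refine ⟨x, ⟨⟨h3.1, h3.2.1, x1, h3.2.2.2.1, x2, x3⟩, ?_, ?_⟩, ih x ⟨⟨x1, h3.2.1, h3.2.2.1,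
      x3.symm, hxd, h3.2.2.2.2.2⟩, ?_, ?_⟩⟩
    · rw [x4]; exact a1
    · rw [x4]; exact a2
    · rw [hY]; exact k1
    · rw [hY]; exact k2

lemma backward (h1 : S_ARI) (n : ℕ) (a c d : Pt L0) : ∀ (j : ℕ) (b : Pt L0),
    C n j a c b d → Dist4 a b c d ∧ 0 < Y a b c d ∧ (Y a b c d ∈ Gam (n + 1) →
      (j : ℤ) + 1 ≤ (ofColex (Y a b c d)) n) := by
  obtain ⟨a1, a2, a3, a4, a5, a6⟩ := h1 n
  obtain ⟨b1, b2, b3, b4, b5, b6⟩ := h1 (n + 1)
  intro j
  induction j with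
  | zero =>
    rintro b ⟨h3, h4, h5⟩
    refine ⟨h3, h4, fun h => ?_⟩
    have := a5 _ h4 h h5
    simpa using this
  | succ j ih =>
    rintro b ⟨x, ⟨h3, h4, h5⟩, hx⟩
    obtain ⟨k1, k2, k3⟩ := ih x hx
    have hY := Y_add a b c d x
    have hpos : 0 < Y a b c d := by rw [← hY]; exact add_pos h4 k2
    refine ⟨⟨h3.1, h3.2.1, k1.2.2.1, h3.2.2.2.1, ?_, k1.2.2.2.2.2⟩, hpos, fun h => ?_⟩
    · intro hbd
      rw [hbd, Y_self] at hpos
      exact lt_irrefl _ hpos
    · have l1 : Y a b c x ≤ Y a b c d := by rw [← hY]; exact le_add_of_nonneg_right k2.le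
      have l2 : Y a x c d ≤ Y a b c d := by rw [← hY]; exact le_add_of_nonneg_left h4.le
      have m1 := b4 _ _ h4.le l1 h
      have m2 := b4 _ _ k2.le l2 h
      have n1 := a5 _ h4 m1 h5
      have n2 := k3 m2
      have n3 : (ofColex (Y a b c d)) n = (ofColex (Y a b c x)) n + (ofColex (Y a x c d)) n := by
        rw [← hY]
        simp
      rw [n3]
      push_cast
      linarith

theorem main (h1 : S_ARI) (h2 : S_STD3) : S_STEP := by
  intro n g hg
  have key : ∀ a b c d : Pt L0, D (Gam (n + 1) : Set L0) a b c d ↔ ∀ j, C n j a c b d := by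
    intro a b c d
    constructor
    · intro h j
      exact forward h1 h2 n a c d j b h
    · intro h
      obtain ⟨k1, k2, -⟩ := backward h1 n a c d 0 b (h 0)
      refine ⟨k1, k2, fun hm => ?_⟩
      set N := (ofColex (Y a b c d)) n with hN
      obtain ⟨-, -, k3⟩ := backward h1 n a c d N.toNat b (h _)
      have := k3 hm
      rw [← hN] at this
      omega
  show g ∈ Aut (D (Gam (n + 1) : Set L0))
  rw [mem_Aut]
  intro a b c d
  rw [key, key]
  exact forall_congr' fun j => C_inv hg j a c b d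

end Pool.Agent.W721.CGStep
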